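import Pool.Agent.K7.H41.OP.Stm

/-!
# Project OP, job KEY (helper99)
-/

set_option autoImplicit false

namespace Pool.Agent.K7.H99.OP

open Pool.Agent.K7.H41.OP

theorem cen_comm {G H : Type} [Group G] [Group H] {ρ : G →* H} (h : Cen ρ) (g : G) (x : H) :
    ρ g * x = x * ρ g := ((Subgroup.mem_center_iff.1 (h g)) x).symm

theorem cen_kill {G H : Type} [Group G] [Group H] {ρ : G →* H} (h : Cen ρ) {z : G}
    (hz : z ∈ commutator G) : ρ z = 1 := by
  have h1 : commutator G ≤ ρ.ker := by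
    rw [commutator_def, Subgroup.commutator_le]
    intro g1 _ g2 _
    rw [MonoidHom.mem_ker, map_commutatorElement, commutatorElement_eq_one_iff_mul_comm]
    exact cen_comm h g1 (ρ g2)
  exact h1 hz

theorem L_inj {n : ℕ} {v w : L n} {k : ℕ} (hk : 0 < k) (h : v ^ k = w ^ k) : v = w := by
  have h' := congrArg Multiplicative.toAdd h
  rw [toAdd_pow, toAdd_pow] at h'
  apply Multiplicative.toAdd.injective
  funext i
  have h2 := congrFun h' i
  simp only [Pi.smul_apply, nsmul_eq_mul] at h2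
  have hk' : (k : ℤ) ≠ 0 := by exact_mod_cast hk.ne'
  exact mul_left_cancel₀ hk' h2

theorem aut_center {A : Type} [Group A] (φ : MulAut A) {w : A} (hw : w ∈ Subgroup.center A) :
    φ w ∈ Subgroup.center A := by
  rw [Subgroup.mem_center_iff] at hw ⊢
  intro g
  have h1 : φ (φ⁻¹ g) = g := MulAut.apply_inv_self A φ g
  rw [← h1, ← map_mul, ← map_mul, hw]

theorem ex_R {A : Type} [Group A] (D : Lat A) (f : L D.n →* A) (hf : Cen f) :
    ∃ R : L D.n →* L D.n, ∀ v, D.r (f v) = (R v) ^ D.c := by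
  choose R hR using fun v => D.rc (f v) (hf v)
  refine ⟨MonoidHom.mk' R ?_, hR⟩
  intro v v'
  apply L_inj D.hc
  rw [← hR, map_mul, map_mul, hR, hR, mul_pow]

theorem act {A : Type} [Group A] (D : Lat A) (ρ : A →* A) (hρ : Cen ρ) (R : L D.n →* L D.n)
    (hR : ∀ v, D.r (ρ (D.s v)) = (R v) ^ D.c) {w : A} (hw : w ∈ Subgroup.center A) {u : L D.n}
    (hu : D.r w = u ^ D.c) : D.r (ρ w) = (R u) ^ D.c := by
  set z := w * (D.s u)⁻¹ with hz
  have hzc : z ∈ Subgroup.center A := mul_mem hw (inv_mem (D.sc u))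
  have hrz : D.r z = 1 := by rw [hz, map_mul, map_inv, D.rs, hu, mul_inv_cancel]
  have hzt := D.tor z hzc hrz
  have h1 : ρ (z ^ D.t) = 1 := cen_kill hρ hzt
  have h2 : (D.r (ρ z)) ^ D.t = 1 := by rw [← map_pow, ← map_pow, h1, map_one]
  have h3 : D.r (ρ z) = 1 := L_inj D.ht (by rw [h2, one_pow])
  have h4 : w = z * D.s u := by rw [hz]; group
  rw [h4, map_mul, map_mul, h3, one_mul, hR]

/-- action of `a ↦ a ρ(a) ^ m` on the lattice -/
theorem lin {A : Type} [Group A] (D : Lat A) (θ : MulAut A) (ρ : A →* A) (hρ : Cen ρ) (m : ℕ)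
    (hθ : ∀ a, θ a = a * ρ a ^ m) (R : L D.n →* L D.n)
    (hR : ∀ v, D.r (ρ (D.s v)) = (R v) ^ D.c) {w : A} (hw : w ∈ Subgroup.center A) {u : L D.n}
    (hu : D.r w = u ^ D.c) : D.r (θ w) = (u * R u ^ m) ^ D.c := by
  rw [hθ, map_mul, map_pow, act D ρ hρ R hR hw hu, hu, mul_pow, ← pow_mul, ← pow_mul, mul_comm m]

theorem inv_rel {A : Type} [Group A] (D : Lat A) (θ θ' : MulAut A) (h : θ * θ' = 1)
    (ρ ρ' : A →* A) (hρ : Cen ρ) (hρ' : Cen ρ') (m : ℕ) (hm : 0 < m)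
    (hθ : ∀ a, θ a = a * ρ a ^ m) (hθ' : ∀ a, θ' a = a * ρ' a ^ m) (R R' : L D.n →* L D.n)
    (hR : ∀ v, D.r (ρ (D.s v)) = (R v) ^ D.c) (hR' : ∀ v, D.r (ρ' (D.s v)) = (R' v) ^ D.c)
    (v : L D.n) : R' v * R (v * R' v ^ m) = 1 ∧ (v * R' v ^ m) * R (v * R' v ^ m) ^ m = v := by
  have h1 := lin D θ' ρ' hρ' m hθ' R' hR' (D.sc v) (D.rs v)
  have h2 := lin D θ ρ hρ m hθ R hR (aut_center θ' (D.sc v)) h1
  have h3 : θ (θ' (D.s v)) = D.s v := by
    rw [← MulAut.mul_apply, h]; rfl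
  rw [h3, D.rs] at h2
  have h4 := (L_inj D.hc h2).symm
  refine ⟨?_, h4⟩
  apply L_inj hm
  rw [one_pow, mul_pow]
  have h5 : v * (R' v ^ m * R (v * R' v ^ m) ^ m) = v * 1 := by
    rw [← mul_assoc, h4, mul_one]
  exact mul_left_cancel h5

/-- the claim -/
theorem claim (hPow : StPow) {A : Type} [Group A] (D : Lat A) (K0 K1 : Subgroup (MulAut A))
    (E : ℕ) (hE : 0 < E) (hE0 : ∀ θ : MulAut A, θ ^ E ∈ K0)
    (h01 : ∀ θ ∈ K0, Tr D θ → θ ∈ K1)
    (hJ : ∀ (θ : MulAut A) (X : L D.n →* L D.n), (∀ a, θ a = a * D.s (X (D.r a))) → θ ∈ K1) :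
    Big K1 (2 * E * D.t * D.c) := by
  intro θ ρ hρ hθ
  have ht := D.ht
  have hc := D.hc
  have hm : 0 < 2 * E * D.t * D.c := by positivity
  set k2 : ℕ := 2 * E * D.t with hk2
  have hk20 : 0 < k2 := by positivity
  -- the inverse
  let ρ' : A →* A := MonoidHom.mk' (fun a => (ρ (θ⁻¹ a))⁻¹) (by
    intro a b
    rw [map_mul, map_mul, mul_inv_rev]
    have h := cen_comm hρ (θ⁻¹ a) (ρ (θ⁻¹ b))
    rw [← mul_inv_rev, ← mul_inv_rev, h])
  have hρ'a : ∀ a, ρ' a = (ρ (θ⁻¹ a))⁻¹ := fun a => rfl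
  have hρ' : Cen ρ' := fun a => inv_mem (hρ _)
  have hθ' : ∀ a, θ⁻¹ a = a * ρ' a ^ (k2 * D.c) := by
    intro a
    have h1 : θ (θ⁻¹ a) = a := MulAut.apply_inv_self A θ a
    have h2 := hθ (θ⁻¹ a)
    rw [h1] at h2
    rw [hρ'a, inv_pow]
    nth_rewrite 2 [h2]
    group
  obtain ⟨R, hR⟩ := ex_R D (ρ.comp D.s) (fun v => hρ _)
  obtain ⟨R', hR'⟩ := ex_R D (ρ'.comp D.s) (fun v => hρ' _)
  have f1 := inv_rel D θ θ⁻¹ (mul_inv_cancel θ) ρ ρ' hρ hρ' (k2 * D.c) hm hθ hθ' R R' hR hR'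
  have f2 := inv_rel D θ⁻¹ θ (inv_mul_cancel θ) ρ' ρ hρ' hρ (k2 * D.c) hm hθ' hθ R' R hR' hR
  -- the automorphism j_X
  let X : L D.n →* L D.n := (powMonoidHom k2).comp R
  let X' : L D.n →* L D.n := (powMonoidHom k2).comp R'
  have hX : ∀ v, X v = R v ^ k2 := fun v => rfl
  have hX' : ∀ v, X' v = R' v ^ k2 := fun v => rfl
  let jf : (L D.n →* L D.n) → (A →* A) := fun Y => MonoidHom.mk' (fun a => a * D.s (Y (D.r a))) (by
    intro a b
    rw [map_mul, map_mul, map_mul]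
    have h : b * D.s (Y (D.r a)) = D.s (Y (D.r a)) * b := (cen_comm D.sc _ b).symm
    calc a * b * (D.s (Y (D.r a)) * D.s (Y (D.r b)))
        = a * (b * D.s (Y (D.r a))) * D.s (Y (D.r b)) := by group
      _ = a * (D.s (Y (D.r a)) * b) * D.s (Y (D.r b)) := by rw [h]
      _ = _ := by group)
  have hjf : ∀ Y a, jf Y a = a * D.s (Y (D.r a)) := fun Y a => rfl
  have hcomp : ∀ (R R' : L D.n →* L D.n) (Y Y' : L D.n →* L D.n), (∀ v, Y v = R v ^ k2) →
      (∀ v, Y' v = R' v ^ k2) → (∀ v, R' v * R (v * R' v ^ (k2 * D.c)) = 1) →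
      ∀ a, jf Y (jf Y' a) = a := by
    intro R R' Y Y' hY hY' h a
    rw [hjf, hjf, mul_assoc, ← map_mul]
    have e : Y' (D.r a) * Y (D.r (a * D.s (Y' (D.r a)))) = 1 := by
      rw [map_mul, D.rs, hY, hY', ← pow_mul, ← mul_pow, h, one_pow]
    rw [e, map_one, mul_one]
  have c1 : ∀ a, jf X (jf X' a) = a := hcomp R R' X X' hX hX' (fun v => (f1 v).1)
  have c2 : ∀ a, jf X' (jf X a) = a := hcomp R' R X' X hX' hX (fun v => (f2 v).1)
  let jX : MulAut A := MonoidHom.toMulEquiv (jf X) (jf X') (MonoidHom.ext c2) (MonoidHom.ext c1)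
  have hjX : ∀ a, jX a = a * D.s (X (D.r a)) := fun a => rfl
  have hjX' : ∀ a, jX⁻¹ a = a * D.s (X' (D.r a)) := fun a => rfl
  have hjK : jX ∈ K1 := hJ jX X hjX
  -- the automorphism ξ
  set ξ : MulAut A := θ * jX⁻¹ with hξ
  have hξa : ∀ a, ξ a = θ (a * D.s (X' (D.r a))) := fun a => rfl
  have hθc : ∀ v, θ (D.s v) ∈ Subgroup.center A := fun v => aut_center θ (D.sc v)
  let x' : A →* A := MonoidHom.mk' (fun a => ρ a ^ D.c * θ (D.s (R' (D.r a)))) (by
    intro a b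
    have h1 : ρ (a * b) ^ D.c = ρ a ^ D.c * ρ b ^ D.c := by
      rw [map_mul]
      exact (Commute.mul_pow (cen_comm hρ a (ρ b)) D.c)
    have h2 : θ (D.s (R' (D.r (a * b)))) = θ (D.s (R' (D.r a))) * θ (D.s (R' (D.r b))) := by
      rw [map_mul, map_mul, map_mul, map_mul]
    rw [h1, h2]
    have h3 : ρ b ^ D.c * θ (D.s (R' (D.r a))) = θ (D.s (R' (D.r a))) * ρ b ^ D.c :=
      Subgroup.mem_center_iff.1 (hθc _) _
    calc ρ a ^ D.c * ρ b ^ D.c * (θ (D.s (R' (D.r a))) * θ (D.s (R' (D.r b))))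
        = ρ a ^ D.c * (ρ b ^ D.c * θ (D.s (R' (D.r a)))) * θ (D.s (R' (D.r b))) := by group
      _ = ρ a ^ D.c * (θ (D.s (R' (D.r a))) * ρ b ^ D.c) * θ (D.s (R' (D.r b))) := by rw [h3]
      _ = _ := by group)
  have hx'a : ∀ a, x' a = ρ a ^ D.c * θ (D.s (R' (D.r a))) := fun a => rfl
  have hx'c : Cen x' := fun a => mul_mem (pow_mem (hρ a) _) (hθc _)
  let x : A →* A := MonoidHom.mk' (fun a => x' a ^ D.t) (by
    intro a b
    rw [map_mul]
    exact (Commute.mul_pow (cen_comm hx'c a (x' b)) D.t))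
  have hxa : ∀ a, x a = x' a ^ D.t := fun a => rfl
  have hxc : Cen x := fun a => pow_mem (hx'c a) _
  have hξx : ∀ a, ξ a = a * x a ^ (2 * E) := by
    intro a
    rw [hξa, map_mul, hθ, hxa, hx'a, hX', map_pow, map_pow, mul_assoc]
    congr 1
    rw [← pow_mul, Commute.mul_pow (Commute.pow_left (cen_comm hρ a _) D.c), ← pow_mul]
    rw [hk2]
    congr 2 <;> ring
  have hTr : Tr D ξ := by
    intro w hw
    obtain ⟨u, hu⟩ := D.rc w hw
    have hw' : w * D.s (X' (D.r w)) ∈ Subgroup.center A := mul_mem hw (D.sc _)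
    have hu' : D.r (w * D.s (X' (D.r w))) = (u * R' u ^ (k2 * D.c)) ^ D.c := by
      rw [map_mul, D.rs, hX', hu, map_pow, mul_pow]
      congr 1
      rw [← pow_mul, ← pow_mul, ← pow_mul]
      congr 1
      ring
    rw [hξa, lin D θ ρ hρ (k2 * D.c) hθ R hR hw' hu', (f1 u).2, hu]
  have hxx : ∀ w ∈ Subgroup.center A, x (x w) = 1 := by
    intro w hw
    have h1 := hTr w hw
    rw [hξx, map_mul, map_pow] at h1
    have h2 : D.r (x w) ^ (2 * E) = 1 := by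
      have : D.r w * D.r (x w) ^ (2 * E) = D.r w * 1 := by rw [h1, mul_one]
      exact mul_left_cancel this
    have h3 : D.r (x w) = 1 := L_inj (by positivity : 0 < 2 * E) (by rw [h2, one_pow])
    have h4 := D.tor (x w) (hxc w) h3
    rw [hxa, ← map_pow]
    exact cen_kill hx'c h4
  obtain ⟨μ, ν, hμν⟩ := hPow A E x hE hxc (fun a => hxx (x a) (hxc a)) ξ hξx
  have hξ0 : ξ ∈ K0 := by rw [hμν]; exact mul_mem (hE0 μ) (hE0 ν)
  have hξ1 : ξ ∈ K1 := h01 ξ hξ0 hTr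
  have : θ = ξ * jX := by rw [hξ]; group
  rw [this]
  exact mul_mem hξ1 hjK

theorem key (hOut : StOut) (hJ : StJ) (hPow : StPow) : StKey := by
  intro A _ hfg hRF D α hα hαc
  obtain ⟨H0, hH1, hH2, hH3⟩ := (hOut A).1 hRF α hα
  set K0 := H0.normalCore with hK0
  have hK0f : K0.FiniteIndex := inferInstance
  have hK0n : K0.Normal := inferInstance
  have hK0i : Inn A ≤ K0 := Subgroup.normal_le_normalCore.2 hH1
  have hαK0 : α ∉ K0 := fun h => hH3 (Subgroup.normalCore_le H0 h)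
  obtain ⟨K1, k1, k2, k3, k4, k5⟩ := hJ A hfg D K0 hK0n hK0f hK0i
  have hE : 0 < K0.index := Nat.pos_of_ne_zero hK0f.index_ne_zero
  have hE0 : ∀ θ : MulAut A, θ ^ K0.index ∈ K0 := fun θ => Subgroup.pow_index_mem K0 θ
  have hclaim := claim hPow D K0 K1 K0.index hE hE0 k4 k5
  have hαTr : Tr D α := by
    intro w _
    have h1 : commutator A ≤ D.r.ker := Abelianization.commutator_subset_ker D.r
    have h2 : D.r (α w * w⁻¹) = 1 := h1 (hαc w)
    rw [map_mul, map_inv, mul_inv_eq_one] at h2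
    exact h2
  refine ⟨K1.normalCore, 2 * K0.index * D.t * D.c, ?_, inferInstance, inferInstance,
    Subgroup.normal_le_normalCore.2 k2, ?_, ?_⟩
  · have := D.ht
    have := D.hc
    positivity
  · intro h
    exact hαK0 (k3 α (Subgroup.normalCore_le K1 h) hαTr)
  · intro θ ρ hρ hθ g
    apply hclaim (g * θ * g⁻¹)
      ((g : A ≃* A).toMonoidHom.comp (ρ.comp ((g⁻¹ : MulAut A) : A ≃* A).toMonoidHom))
    · intro a
      exact aut_center g (hρ _)
    · intro a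
      show g (θ (g⁻¹ a)) = a * (g (ρ (g⁻¹ a))) ^ _
      rw [hθ, map_mul, map_pow]
      rw [MulAut.apply_inv_self]

end Pool.Agent.K7.H99.OP
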